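import Mathlib

/-!
# The centred maximal function on a path: variation over the gaps of the support

All statements are about functions on `{0, …, N}` written as functions on `ℕ`.
-/

set_option autoImplicit false

open Finset

namespace Pool.Agent.Helper51_Max

/-- the ball of radius `r` around `v` in the path `{0, …, N}` -/
def I (N v r : ℕ) : Finset ℕ := Icc (v - r) (min (v + r) N)

/-- `M` is the centred maximal function of the nonnegative function `g` on `{0, …, N}` -/
structure IsMax (N : ℕ) (g M : ℕ → ℝ) : Prop where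
  nonneg : ∀ i, 0 ≤ g i
  le : ∀ v ≤ N, ∀ r, ∑ i ∈ I N v r, g i ≤ M v * ((I N v r).card : ℝ)
  attained : ∀ v ≤ N, ∃ r, M v * ((I N v r).card : ℝ) = ∑ i ∈ I N v r, g i

variable {N : ℕ} {g M : ℕ → ℝ}

lemma card_I (N v r : ℕ) : (I N v r).card = min (v + r) N + 1 - (v - r) := by
  simp [I]

lemma card_I_pos {v : ℕ} (r : ℕ) (hv : v ≤ N) : 0 < (I N v r).card := by
  rw [card_I]; omega

lemma IsMax.M_nonneg (h : IsMax N g M) {v : ℕ} (hv : v ≤ N) : 0 ≤ M v := by
  have h1 := h.le v hv 0
  have h2 : (I N v 0).card = 1 := by rw [card_I]; omega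
  rw [h2] at h1
  have h3 : 0 ≤ ∑ i ∈ I N v 0, g i := sum_nonneg fun i _ => h.nonneg i
  push_cast at h1
  linarith

lemma IsMax.M_le_of_ball (h : IsMax N g M) {v w r r' : ℕ} (hv : v ≤ N) (hw : w ≤ N)
    (hr : M v * ((I N v r).card : ℝ) = ∑ i ∈ I N v r, g i)
    (hs : ∑ i ∈ I N v r, g i ≤ ∑ i ∈ I N w r', g i)
    (hc : (I N w r').card ≤ (I N v r).card) : M v ≤ M w := by
  have h1 := h.le w hw r'
  have h2 : (0 : ℝ) < (I N v r).card := by exact_mod_cast card_I_pos r hv
  have h3 : ((I N w r').card : ℝ) ≤ (I N v r).card := by exact_mod_cast hc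
  have h4 : M w * ((I N w r').card : ℝ) ≤ M w * (I N v r).card :=
    mul_le_mul_of_nonneg_left h3 (h.M_nonneg hw)
  have h5 : M v * ((I N v r).card : ℝ) ≤ M w * (I N v r).card := by linarith
  exact le_of_mul_le_mul_right h5 h2

/-- If the maximal function decreases from `v` to `v + 1` and `g` vanishes on `(a, v]`, then it
does not decrease fast. -/
lemma IsMax.right (h : IsMax N g M) {a v : ℕ} (hav : a ≤ v) (hv : v + 1 ≤ N)
    (hz : ∀ i, a < i → i ≤ v → g i = 0) (hlt : M (v + 1) < M v) :
    M v * (2 * (v - a : ℝ) + 1) ≤ M (v + 1) * (2 * (v - a : ℝ) + 3) := by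
  have hvN : v ≤ N := by omega
  obtain ⟨r, hr⟩ := h.attained v hvN
  have hM := h.M_nonneg hv
  -- the ball reaches `a`
  have hra : v ≤ a + r := by
    by_contra hcon
    push Not at hcon
    rcases Nat.eq_zero_or_pos r with h0 | h0
    · subst h0
      have h2 : I N v 0 = {v} := by
        ext i; simp only [I, mem_Icc, mem_singleton]; omega
      rw [h2] at hr
      simp only [card_singleton, sum_singleton, Nat.cast_one, mul_one] at hr
      rw [hz v (by omega) le_rfl] at hr
      linarith
    · have hle : M v ≤ M (v + 1) := by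
        refine h.M_le_of_ball hvN hv (r' := r - 1) hr ?_ ?_
        · have hsub : I N (v + 1) (r - 1) ⊆ I N v r := by
            intro i; simp only [I, mem_Icc]; omega
          rw [← sum_subset hsub]
          intro i hi hi'
          apply hz
          · simp only [I, mem_Icc] at hi hi'; omega
          · simp only [I, mem_Icc] at hi hi'; omega
        · rw [card_I, card_I]; omega
      linarith
  -- the ball is not truncated on the right
  have hrN : v + r + 1 ≤ N := by
    by_contra hcon
    push Not at hcon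
    have hle : M v ≤ M (v + 1) := by
      have he : I N (v + 1) (r + 1) = I N v r := by
        ext i; simp only [I, mem_Icc]; omega
      refine h.M_le_of_ball hvN hv (r' := r + 1) hr ?_ ?_ <;> rw [he]
    linarith
  have hcard : 2 * (v - a) + 1 ≤ (I N v r).card := by rw [card_I]; omega
  have hcard' : (I N (v + 1) (r + 1)).card ≤ (I N v r).card + 2 := by
    rw [card_I, card_I]; omega
  have hsub : I N v r ⊆ I N (v + 1) (r + 1) := by
    intro i; simp only [I, mem_Icc]; omega
  have h1 := h.le (v + 1) hv (r + 1)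
  have h2 : ∑ i ∈ I N v r, g i ≤ ∑ i ∈ I N (v + 1) (r + 1), g i :=
    sum_le_sum_of_subset_of_nonneg hsub fun i _ _ => h.nonneg i
  have h3 : ((I N (v + 1) (r + 1)).card : ℝ) ≤ (I N v r).card + 2 := by exact_mod_cast hcard'
  have h4 : M (v + 1) * ((I N (v + 1) (r + 1)).card : ℝ) ≤ M (v + 1) * ((I N v r).card + 2) :=
    mul_le_mul_of_nonneg_left h3 hM
  have h5 : (2 * (v - a : ℝ) + 1) ≤ (I N v r).card := by
    have : ((2 * (v - a) + 1 : ℕ) : ℝ) ≤ (I N v r).card := by exact_mod_cast hcard
    push_cast [Nat.cast_sub hav] at this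
    exact this
  have h6 : (M v - M (v + 1)) * (2 * (v - a : ℝ) + 1) ≤ (M v - M (v + 1)) * (I N v r).card :=
    mul_le_mul_of_nonneg_left h5 (by linarith)
  nlinarith

/-- The mirror image of `IsMax.right`. -/
lemma IsMax.left (h : IsMax N g M) {b v : ℕ} (hvb : v + 1 ≤ b) (hb : b ≤ N)
    (hz : ∀ i, v + 1 ≤ i → i < b → g i = 0) (hlt : M v < M (v + 1)) :
    M (v + 1) * (2 * (b - v : ℝ) - 1) ≤ M v * (2 * (b - v : ℝ) + 1) := by
  have hvN : v ≤ N := by omega
  have hv : v + 1 ≤ N := by omega
  obtain ⟨r, hr⟩ := h.attained (v + 1) hv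
  have hM := h.M_nonneg hvN
  have hra : b ≤ v + 1 + r := by
    by_contra hcon
    push Not at hcon
    rcases Nat.eq_zero_or_pos r with h0 | h0
    · subst h0
      have h2 : I N (v + 1) 0 = {v + 1} := by
        ext i; simp only [I, mem_Icc, mem_singleton]; omega
      rw [h2] at hr
      simp only [card_singleton, sum_singleton, Nat.cast_one, mul_one] at hr
      rw [hz (v + 1) le_rfl (by omega)] at hr
      linarith
    · have hle : M (v + 1) ≤ M v := by
        refine h.M_le_of_ball hv hvN (r' := r - 1) hr ?_ ?_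
        · have hsub : I N v (r - 1) ⊆ I N (v + 1) r := by
            intro i; simp only [I, mem_Icc]; omega
          rw [← sum_subset hsub]
          intro i hi hi'
          apply hz
          · simp only [I, mem_Icc] at hi hi'; omega
          · simp only [I, mem_Icc] at hi hi'; omega
        · rw [card_I, card_I]; omega
      linarith
  have hrN : r ≤ v := by
    by_contra hcon
    push Not at hcon
    have hle : M (v + 1) ≤ M v := by
      have he : I N v (r + 1) = I N (v + 1) r := by
        ext i; simp only [I, mem_Icc]; omega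
      refine h.M_le_of_ball hv hvN (r' := r + 1) hr ?_ ?_ <;> rw [he]
    linarith
  have hcard : 2 * (b - v) - 1 ≤ (I N (v + 1) r).card := by rw [card_I]; omega
  have hcard' : (I N v (r + 1)).card ≤ (I N (v + 1) r).card + 2 := by
    rw [card_I, card_I]; omega
  have hsub : I N (v + 1) r ⊆ I N v (r + 1) := by
    intro i; simp only [I, mem_Icc]; omega
  have h1 := h.le v hvN (r + 1)
  have h2 : ∑ i ∈ I N (v + 1) r, g i ≤ ∑ i ∈ I N v (r + 1), g i :=
    sum_le_sum_of_subset_of_nonneg hsub fun i _ _ => h.nonneg i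
  have h3 : ((I N v (r + 1)).card : ℝ) ≤ (I N (v + 1) r).card + 2 := by exact_mod_cast hcard'
  have h4 : M v * ((I N v (r + 1)).card : ℝ) ≤ M v * ((I N (v + 1) r).card + 2) :=
    mul_le_mul_of_nonneg_left h3 hM
  have h5 : (2 * (b - v : ℝ) - 1) ≤ (I N (v + 1) r).card := by
    have h6 : ((2 * (b - v) - 1 : ℕ) : ℝ) ≤ (I N (v + 1) r).card := by exact_mod_cast hcard
    rw [Nat.cast_sub (by omega)] at h6
    push_cast [Nat.cast_sub (show v ≤ b by omega)] at h6
    exact h6
  have h6 : (M (v + 1) - M v) * (2 * (b - v : ℝ) - 1) ≤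
      (M (v + 1) - M v) * (I N (v + 1) r).card :=
    mul_le_mul_of_nonneg_left h5 (by linarith)
  nlinarith

/-- one step inside a gap `(a, b)` of the support of `g` -/
lemma IsMax.step (h : IsMax N g M) {a b v : ℕ} (hav : a ≤ v) (hvb : v + 1 ≤ b) (hb : b ≤ N)
    (hz : ∀ i, a < i → i < b → g i = 0) :
    |M v - M (v + 1)| * (b - a + 1 : ℝ) ≤
      M v * (a + b - 2 * v : ℝ) - M (v + 1) * (a + b - 2 * (v + 1 : ℕ) : ℝ) := by
  push_cast
  rcases lt_trichotomy (M v) (M (v + 1)) with hlt | heq | hgt
  · have := h.left hvb hb (fun i h1 h2 => hz i (by omega) h2) hlt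
    rw [abs_sub_comm, abs_of_pos (by linarith)]
    nlinarith
  · have := h.M_nonneg (show v ≤ N by omega)
    rw [heq, sub_self, abs_zero]
    nlinarith
  · have := h.right hav (show v + 1 ≤ N by omega) (fun i h1 h2 => hz i h1 (by omega)) hgt
    rw [abs_of_pos (by linarith)]
    nlinarith

/-- **The gap lemma.** -/
lemma IsMax.gap (h : IsMax N g M) {a b : ℕ} (hab : a < b) (hb : b ≤ N)
    (hz : ∀ i, a < i → i < b → g i = 0) :
    (∑ v ∈ Ico a b, |M v - M (v + 1)|) * (b - a + 1 : ℝ) ≤
      (M a + M b) * (b - a : ℝ) := by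
  have key : ∀ c, a ≤ c → c ≤ b →
      (∑ v ∈ Ico a c, |M v - M (v + 1)|) * (b - a + 1 : ℝ) ≤
        M a * (b - a : ℝ) - M c * (a + b - 2 * c : ℝ) := by
    intro c hac
    induction c, hac using Nat.le_induction with
    | base => intro _; simp only [Ico_self, sum_empty, zero_mul]; nlinarith
    | succ c hac ih =>
      intro hcb
      have h1 := ih (by omega)
      have h2 := h.step hac hcb hb hz
      rw [sum_Ico_succ_top (by omega), add_mul]
      linarith
  have := key b hab.le le_rfl
  nlinarith

lemma IsMax.mono_left (h : IsMax N g M) {v : ℕ} (hv : v + 1 ≤ N) (hz : ∀ i ≤ v, g i = 0) :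
    M v ≤ M (v + 1) := by
  obtain ⟨r, hr⟩ := h.attained v (by omega)
  rcases Nat.eq_zero_or_pos r with h0 | h0
  · subst h0
    have h2 : I N v 0 = {v} := by
      ext i; simp only [I, mem_Icc, mem_singleton]; omega
    rw [h2] at hr
    simp only [card_singleton, sum_singleton, Nat.cast_one, mul_one] at hr
    rw [hz v le_rfl] at hr
    rw [hr]
    exact h.M_nonneg hv
  · refine h.M_le_of_ball (by omega) hv (r' := r - 1) hr ?_ ?_
    · have hsub : I N (v + 1) (r - 1) ⊆ I N v r := by
        intro i; simp only [I, mem_Icc]; omega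
      rw [← sum_subset hsub]
      intro i hi hi'
      apply hz
      simp only [I, mem_Icc] at hi hi'; omega
    · rw [card_I, card_I]; omega

lemma IsMax.mono_right (h : IsMax N g M) {v : ℕ} (hv : v + 1 ≤ N)
    (hz : ∀ i, v + 1 ≤ i → g i = 0) : M (v + 1) ≤ M v := by
  obtain ⟨r, hr⟩ := h.attained (v + 1) hv
  rcases Nat.eq_zero_or_pos r with h0 | h0
  · subst h0
    have h2 : I N (v + 1) 0 = {v + 1} := by
      ext i; simp only [I, mem_Icc, mem_singleton]; omega
    rw [h2] at hr
    simp only [card_singleton, sum_singleton, Nat.cast_one, mul_one] at hr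
    rw [hz (v + 1) le_rfl] at hr
    rw [hr]
    exact h.M_nonneg (by omega)
  · refine h.M_le_of_ball hv (by omega) (r' := r - 1) hr ?_ ?_
    · have hsub : I N v (r - 1) ⊆ I N (v + 1) r := by
        intro i; simp only [I, mem_Icc]; omega
      rw [← sum_subset hsub]
      intro i hi hi'
      apply hz
      simp only [I, mem_Icc] at hi hi'; omega
    · rw [card_I, card_I]; omega

/-- the mean over the whole path is a lower bound -/
lemma IsMax.mean (h : IsMax N g M) {v b : ℕ} (hv : v ≤ N) (hb : b ≤ N) :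
    g b ≤ M v * (N + 1 : ℝ) := by
  have h1 := h.le v hv N
  have h2 : (I N v N).card = N + 1 := by rw [card_I]; omega
  rw [h2] at h1
  have h3 : g b ≤ ∑ i ∈ I N v N, g i :=
    single_le_sum (fun i _ => h.nonneg i) (by simp only [I, mem_Icc]; omega)
  push_cast at h1
  linarith

end Pool.Agent.Helper51_Max
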