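import Pool.Agent.Helper51_Max.Main

/-!
# Maximal functions and variation on graphs; the path graph
-/

set_option autoImplicit false

open Finset SimpleGraph

namespace Pool.Agent.Helper51_Max

section Defs

variable {V : Type*} [Fintype V]

open Classical in
/-- The ball `B_G(v, r)`: all vertices at graph distance at most `r` from `v`. -/
noncomputable def ball (G : SimpleGraph V) (v : V) (r : ℕ) : Finset V :=
  univ.filter fun w => G.dist v w ≤ r

/-- The centred Hardy-Littlewood maximal function
`(M_G f)(v) = max_r |B_G(v,r)|⁻¹ ∑_{w ∈ B_G(v,r)} |f w|`. -/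
noncomputable def maximal (G : SimpleGraph V) (f : V → ℝ) (v : V) : ℝ :=
  ⨆ r : ℕ, (∑ w ∈ ball G v r, |f w|) / ((ball G v r).card : ℝ)

open Classical in
/-- The variation `∑_{vw ∈ E} |f v - f w|`, each edge counted once. -/
noncomputable def variation (G : SimpleGraph V) (f : V → ℝ) : ℝ :=
  ∑ e ∈ G.edgeFinset, Sym2.lift ⟨fun v w => |f v - f w|, fun _ _ => abs_sub_comm _ _⟩ e

lemma self_mem_ball (G : SimpleGraph V) (v : V) (r : ℕ) : v ∈ ball G v r := by
  simp [ball]

lemma ball_card_pos (G : SimpleGraph V) (v : V) (r : ℕ) : 0 < (ball G v r).card :=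
  card_pos.mpr ⟨v, self_mem_ball G v r⟩

lemma finite_range (G : SimpleGraph V) (f : V → ℝ) (v : V) :
    (Set.range fun r : ℕ => (∑ w ∈ ball G v r, |f w|) / ((ball G v r).card : ℝ)).Finite := by
  have h1 : (Set.range fun r : ℕ => ball G v r).Finite := Set.toFinite _
  refine (h1.image fun s : Finset V => (∑ w ∈ s, |f w|) / (s.card : ℝ)).subset ?_
  rintro _ ⟨r, rfl⟩
  exact ⟨ball G v r, ⟨r, rfl⟩, rfl⟩

lemma avg_le_maximal (G : SimpleGraph V) (f : V → ℝ) (v : V) (r : ℕ) :
    (∑ w ∈ ball G v r, |f w|) / ((ball G v r).card : ℝ) ≤ maximal G f v :=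
  le_ciSup (f := fun r : ℕ => (∑ w ∈ ball G v r, |f w|) / ((ball G v r).card : ℝ))
    (finite_range G f v).bddAbove r

lemma exists_maximal (G : SimpleGraph V) (f : V → ℝ) (v : V) :
    ∃ r : ℕ, (∑ w ∈ ball G v r, |f w|) / ((ball G v r).card : ℝ) = maximal G f v := by
  have := (Set.range_nonempty
    fun r : ℕ => (∑ w ∈ ball G v r, |f w|) / ((ball G v r).card : ℝ)).csSup_mem
    (finite_range G f v)
  exact this

lemma abs_le_maximal (G : SimpleGraph V) (hG : G.Connected) (f : V → ℝ) (v : V) :
    |f v| ≤ maximal G f v := by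
  have h := avg_le_maximal G f v 0
  have h0 : ball G v 0 = {v} := by
    ext w
    simp only [ball, mem_filter, mem_univ, true_and, mem_singleton, Nat.le_zero]
    rw [hG.dist_eq_zero_iff]
    exact eq_comm
  rw [h0] at h
  simpa using h

lemma maximal_le (G : SimpleGraph V) (f : V → ℝ) (v : V) (c : ℝ) (hc : ∀ w, |f w| ≤ c) :
    maximal G f v ≤ c := by
  refine ciSup_le fun r => ?_
  have h1 : (0 : ℝ) < (ball G v r).card := by exact_mod_cast ball_card_pos G v r
  rw [div_le_iff₀ h1]
  calc ∑ w ∈ ball G v r, |f w| ≤ ∑ _w ∈ ball G v r, c := sum_le_sum fun w _ => hc w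
    _ = c * (ball G v r).card := by rw [sum_const, nsmul_eq_mul, mul_comm]

end Defs

section Path

variable {N : ℕ}

lemma walk_bound {v w : Fin (N + 1)} (p : (pathGraph (N + 1)).Walk v w) :
    w.val ≤ v.val + p.length ∧ v.val ≤ w.val + p.length := by
  induction p with
  | nil => simp
  | cons h p ih =>
    rw [pathGraph_adj] at h
    rw [Walk.length_cons]
    omega

lemma dist_le_of_add (k : ℕ) : ∀ v w : Fin (N + 1), w.val = v.val + k →
    (pathGraph (N + 1)).dist v w ≤ k := by
  induction k with
  | zero =>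
    intro v w h
    have : w = v := Fin.ext (by simpa using h)
    subst this
    simp
  | succ k ih =>
    intro v w h
    have hlt : v.val + k < N + 1 := by have := w.isLt; omega
    have h1 := ih v ⟨v.val + k, hlt⟩ rfl
    have h2 : (pathGraph (N + 1)).Adj ⟨v.val + k, hlt⟩ w := by
      rw [pathGraph_adj]; left; simp; omega
    have h3 := (pathGraph_connected N).dist_triangle (u := v) (v := ⟨v.val + k, hlt⟩) (w := w)
    have h4 : (pathGraph (N + 1)).dist ⟨v.val + k, hlt⟩ w = 1 := dist_eq_one_iff_adj.mpr h2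
    omega

lemma dist_le_iff (v w : Fin (N + 1)) (r : ℕ) :
    (pathGraph (N + 1)).dist v w ≤ r ↔ w.val ∈ I N v.val r := by
  have hv := v.isLt
  have hw := w.isLt
  simp only [I, mem_Icc]
  constructor
  · intro h
    obtain ⟨p, hp⟩ := (pathGraph_connected N).exists_walk_length_eq_dist v w
    have := walk_bound p
    omega
  · intro h
    rcases le_total v.val w.val with h1 | h1
    · have := dist_le_of_add (w.val - v.val) v w (by omega)
      omega
    · have := dist_le_of_add (v.val - w.val) w v (by omega)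
      rw [dist_comm] at this
      omega

lemma ball_map (v : Fin (N + 1)) (r : ℕ) :
    (ball (pathGraph (N + 1)) v r).map Fin.valEmbedding = I N v.val r := by
  ext i
  simp only [mem_map, ball, mem_filter, mem_univ, true_and, Fin.valEmbedding_apply]
  constructor
  · rintro ⟨w, hw, rfl⟩
    exact (dist_le_iff v w r).mp hw
  · intro hi
    have hiN : i < N + 1 := by simp only [I, mem_Icc] at hi; omega
    exact ⟨⟨i, hiN⟩, (dist_le_iff v ⟨i, hiN⟩ r).mpr hi, rfl⟩

/-- extension of a function on the path by zero -/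
noncomputable def ext (F : Fin (N + 1) → ℝ) (i : ℕ) : ℝ :=
  if h : i < N + 1 then F ⟨i, h⟩ else 0

lemma ext_val (F : Fin (N + 1) → ℝ) (v : Fin (N + 1)) : ext F v.val = F v := by
  unfold ext; rw [dif_pos v.isLt]

lemma sum_ball (F : Fin (N + 1) → ℝ) (v : Fin (N + 1)) (r : ℕ) :
    ∑ w ∈ ball (pathGraph (N + 1)) v r, F w = ∑ i ∈ I N v.val r, ext F i := by
  rw [← ball_map, sum_map]
  exact sum_congr rfl fun w _ => (ext_val F w).symm

lemma card_ball (v : Fin (N + 1)) (r : ℕ) :
    (ball (pathGraph (N + 1)) v r).card = (I N v.val r).card := by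
  rw [← ball_map, card_map]

lemma variation_path (F : Fin (N + 1) → ℝ) :
    variation (pathGraph (N + 1)) F = ∑ v ∈ Ico 0 N, |ext F v - ext F (v + 1)| := by
  classical
  have h1 : (pathGraph (N + 1)).edgeFinset =
      (univ : Finset (Fin N)).image (fun i => s(i.castSucc, i.succ)) := by
    ext e
    induction e with
    | h v w =>
      rw [mem_edgeFinset, mem_edgeSet, pathGraph_adj]
      simp only [mem_image, mem_univ, true_and]
      constructor
      · rintro (h | h)
        · exact ⟨⟨v.val, by have := w.isLt; omega⟩,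
            Sym2.eq_iff.mpr (Or.inl ⟨Fin.ext (by simp), Fin.ext (by simpa using h)⟩)⟩
        · exact ⟨⟨w.val, by have := v.isLt; omega⟩,
            Sym2.eq_iff.mpr (Or.inr ⟨Fin.ext (by simp), Fin.ext (by simpa using h)⟩)⟩
      · rintro ⟨i, hi⟩
        rw [Sym2.eq_iff] at hi
        rcases hi with ⟨h1, h2⟩ | ⟨h1, h2⟩
        · subst h1 h2; left; simp
        · subst h1 h2; right; simp
  unfold variation
  have h2 : (pathGraph (N + 1)).edgeFinset =
    @edgeFinset _ (pathGraph (N + 1)) (fintypeEdgeSet _) := by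
    ext e; simp
  rw [show (@edgeFinset _ (pathGraph (N + 1)) _) =
      (univ : Finset (Fin N)).image (fun i => s(i.castSucc, i.succ)) from by
        rw [← h1]]
  rw [sum_image, ← range_eq_Ico, ← Fin.sum_univ_eq_sum_range
    (fun v => |ext F v - ext F (v + 1)|) N]
  · refine sum_congr rfl fun i _ => ?_
    rw [Sym2.lift_mk]
    have h3 : ext F i.val = F i.castSucc := by
      have := ext_val F i.castSucc; simpa using this
    have h4 : ext F (i.val + 1) = F i.succ := by
      have := ext_val F i.succ; simpa using this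
    simp only [h3, h4]
  · intro i _ j _ hij
    simp only [Sym2.eq_iff] at hij
    rcases hij with ⟨h3, _⟩ | ⟨h3, h4⟩
    · exact Fin.castSucc_injective _ h3
    · have h5 := congrArg Fin.val h3
      have h6 := congrArg Fin.val h4
      simp at h5 h6
      omega

lemma variation_zero (F : Fin 0 → ℝ) : variation (pathGraph 0) F = 0 := by
  classical
  unfold variation
  apply sum_eq_zero
  intro e _
  induction e with
  | h v w => exact v.elim0

/-- **Main theorem on path graphs.** -/
theorem main (n : ℕ) (f : Fin n → ℝ) (m : ℝ) (hm : ∀ v, m ≤ |f v|)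
    (hatt : ∀ v, |f v| ≠ m → maximal (pathGraph n) f v = |f v|)
    (hpl : ∀ v w, (pathGraph n).Adj v w → |f v| ≠ m → |f w| ≠ m → |f v| = |f w|) :
    variation (pathGraph n) (maximal (pathGraph n) f) ≤
      (1 - 1 / (n : ℝ)) * variation (pathGraph n) f := by
  rcases n with _ | N
  · rw [variation_zero, variation_zero]; simp
  set g : ℕ → ℝ := ext (fun v => |f v| - m) with hg
  set M : ℕ → ℝ := ext (fun v => maximal (pathGraph (N + 1)) f v - m) with hM
  have hcard : ∀ v r, (0 : ℝ) < (ball (pathGraph (N + 1)) v r).card := fun v r => by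
    exact_mod_cast ball_card_pos (pathGraph (N + 1)) v r
  have hsum : ∀ v : Fin (N + 1), ∀ r, ∑ i ∈ I N v.val r, g i =
      ∑ w ∈ ball (pathGraph (N + 1)) v r, |f w| - m * (ball (pathGraph (N + 1)) v r).card := by
    intro v r
    rw [hg, ← sum_ball, sum_sub_distrib, sum_const, nsmul_eq_mul, mul_comm m]
  have hmax : IsMax N g M := by
    refine ⟨?_, ?_, ?_⟩
    · intro i
      rw [hg]; unfold ext
      split_ifs with h
      · linarith [hm ⟨i, h⟩]
      · exact le_rfl
    · intro v hv r
      have h0 := hsum ⟨v, by omega⟩ r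
      have h1 := avg_le_maximal (pathGraph (N + 1)) f ⟨v, by omega⟩ r
      have h2 : M v = maximal (pathGraph (N + 1)) f ⟨v, by omega⟩ - m := by
        rw [hM]; unfold ext; rw [dif_pos (by omega)]
      rw [h0, h2, ← card_ball ⟨v, by omega⟩ r]
      rw [div_le_iff₀ (hcard _ _)] at h1
      linarith
    · intro v hv
      obtain ⟨r, hr⟩ := exists_maximal (pathGraph (N + 1)) f ⟨v, by omega⟩
      refine ⟨r, ?_⟩
      have h0 := hsum ⟨v, by omega⟩ r
      have h2 : M v = maximal (pathGraph (N + 1)) f ⟨v, by omega⟩ - m := by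
        rw [hM]; unfold ext; rw [dif_pos (by omega)]
      rw [h0, h2, ← card_ball ⟨v, by omega⟩ r, ← hr]
      have := (hcard ⟨v, by omega⟩ r).ne'
      field_simp
  have h1 := hmax.main (by
      intro i hi
      rw [hg]; unfold ext; rw [dif_neg (by omega)])
    (by
      intro v hv hne
      have h2 : M v = maximal (pathGraph (N + 1)) f ⟨v, by omega⟩ - m := by
        rw [hM]; unfold ext; rw [dif_pos (by omega)]
      have h3 : g v = |f ⟨v, by omega⟩| - m := by
        rw [hg]; unfold ext; rw [dif_pos (by omega)]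
      rw [h2, h3, hatt]
      intro h4
      rw [h3, h4, sub_self] at hne
      exact hne rfl)
    (by
      intro v hv hne hne'
      have h3 : g v = |f ⟨v, by omega⟩| - m := by
        rw [hg]; unfold ext; rw [dif_pos (by omega)]
      have h4 : g (v + 1) = |f ⟨v + 1, by omega⟩| - m := by
        rw [hg]; unfold ext; rw [dif_pos (by omega)]
      rw [h3, h4, hpl ⟨v, by omega⟩ ⟨v + 1, by omega⟩]
      · rw [pathGraph_adj]; left; rfl
      · intro h5; rw [h3, h5, sub_self] at hne; exact hne rfl
      · intro h5; rw [h4, h5, sub_self] at hne'; exact hne' rfl)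
  have h2 : ∑ v ∈ Ico 0 N, |M v - M (v + 1)| = variation (pathGraph (N + 1)) (maximal (pathGraph (N + 1)) f) := by
    rw [variation_path]
    refine sum_congr rfl fun v hv => ?_
    rw [mem_Ico] at hv
    rw [hM]; unfold ext
    rw [dif_pos (by omega), dif_pos (by omega), dif_pos (by omega), dif_pos (by omega)]
    congr 1; ring
  have h3 : ∑ v ∈ Ico 0 N, |g v - g (v + 1)| ≤ variation (pathGraph (N + 1)) f := by
    rw [variation_path]
    refine sum_le_sum fun v hv => ?_
    rw [mem_Ico] at hv
    rw [hg]; unfold ext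
    rw [dif_pos (by omega), dif_pos (by omega), dif_pos (by omega), dif_pos (by omega)]
    have h5 := abs_abs_sub_abs_le_abs_sub (f ⟨v, by omega⟩) (f ⟨v + 1, by omega⟩)
    have h6 : |f ⟨v, by omega⟩| - m - (|f ⟨v + 1, by omega⟩| - m) =
      |f ⟨v, by omega⟩| - |f ⟨v + 1, by omega⟩| := by ring
    rw [h6]
    exact h5
  rw [h2] at h1
  have h4 : (N : ℝ) * ∑ v ∈ Ico 0 N, |g v - g (v + 1)| ≤ N * variation (pathGraph (N + 1)) f :=
    mul_le_mul_of_nonneg_left h3 (by positivity)
  have h5 : (0 : ℝ) < (N : ℝ) + 1 := by positivity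
  push_cast
  have h6 : (1 - 1 / ((N : ℝ) + 1)) * variation (pathGraph (N + 1)) f = (N * variation (pathGraph (N + 1)) f) / (N + 1) := by
    field_simp
    ring
  rw [h6, le_div_iff₀ h5]
  linarith

/-- two-valued functions -/
theorem main_two (n : ℕ) (f : Fin n → ℝ) (a b : ℝ) (hab : ∀ v, |f v| = a ∨ |f v| = b) :
    variation (pathGraph n) (maximal (pathGraph n) f) ≤
      (1 - 1 / (n : ℝ)) * variation (pathGraph n) f := by
  wlog hle : a ≤ b with H
  · exact H n f b a (fun v => (hab v).symm) (le_of_not_ge hle)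
  rcases n with _ | N
  · rw [variation_zero, variation_zero]; simp
  refine main (N + 1) f a (fun v => ?_) (fun v hv => ?_) (fun v w _ hv hw => ?_)
  · rcases hab v with h | h <;> rw [h]
    exact hle
  · have hb : |f v| = b := (hab v).resolve_left hv
    apply le_antisymm
    · rw [hb]
      refine maximal_le _ f v b fun w => ?_
      rcases hab w with h | h <;> rw [h]
      exact hle
    · exact abs_le_maximal _ (pathGraph_connected N) f v
  · rw [(hab v).resolve_left hv, (hab w).resolve_left hw]

end Path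

end Pool.Agent.Helper51_Max
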