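import Pool.Agent.Helper51_Max.Core

/-!
# The sharp constant for functions with attached plateaus
-/

set_option autoImplicit false

open Finset

namespace Pool.Agent.Helper51_Max

variable {N : ℕ} {g M : ℕ → ℝ}

/-- between two consecutive points of the support -/
lemma IsMax.block (h : IsMax N g M) {a b : ℕ} (hab : a < b) (hb : b ≤ N)
    (hz : ∀ i, a < i → i < b → g i = 0) (hga : g a ≠ 0) (hgb : g b ≠ 0)
    (hatt : ∀ v ≤ N, g v ≠ 0 → M v = g v)
    (hpl : ∀ v, v + 1 ≤ N → g v ≠ 0 → g (v + 1) ≠ 0 → g v = g (v + 1)) :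
    (∑ v ∈ Ico a b, |M v - M (v + 1)|) * (N + 1 : ℝ) ≤
      N * ∑ v ∈ Ico a b, |g v - g (v + 1)| := by
  have hMa : M a = g a := hatt a (by omega) hga
  have hMb : M b = g b := hatt b hb hgb
  rcases Nat.lt_or_ge (a + 1) b with h2 | h2
  · have h1 := h.gap hab hb hz
    have hW : g a + g b ≤ ∑ v ∈ Ico a b, |g v - g (v + 1)| := by
      have hsub : ({a, b - 1} : Finset ℕ) ⊆ Ico a b := by
        intro i hi
        simp only [mem_insert, mem_singleton] at hi
        rw [mem_Ico]; omega
      have h3 := sum_le_sum_of_subset_of_nonneg (f := fun v => |g v - g (v + 1)|) hsub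
        (fun i _ _ => abs_nonneg _)
      rw [sum_pair (by omega)] at h3
      have h4 : g (a + 1) = 0 := hz _ (by omega) h2
      have h5 : g (b - 1) = 0 := hz _ (by omega) (by omega)
      have h6 : b - 1 + 1 = b := by omega
      rw [h4, h5, h6, sub_zero, zero_sub, abs_neg, abs_of_nonneg (h.nonneg a),
        abs_of_nonneg (h.nonneg b)] at h3
      exact h3
    rw [hMa, hMb] at h1
    set T := ∑ v ∈ Ico a b, |M v - M (v + 1)| with hT
    have hH : ((b : ℝ) - a + 1) ≤ N + 1 := by
      have : ((b : ℝ)) ≤ N := by exact_mod_cast hb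
      have h0 : (0 : ℝ) ≤ a := by positivity
      linarith
    have hH0 : (0 : ℝ) < (b : ℝ) - a + 1 := by
      have : ((a : ℝ)) < b := by exact_mod_cast hab
      linarith
    have hP : 0 ≤ g a + g b := add_nonneg (h.nonneg a) (h.nonneg b)
    have h7 : T ≤ g a + g b := by
      by_contra hcon
      push Not at hcon
      nlinarith
    have h8 : T * (N + 1) ≤ N * (g a + g b) := by
      nlinarith
    have h9 : (N : ℝ) * (g a + g b) ≤ N * ∑ v ∈ Ico a b, |g v - g (v + 1)| :=
      mul_le_mul_of_nonneg_left hW (by positivity)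
    linarith
  · have hb' : b = a + 1 := by omega
    subst hb'
    have h3 := hpl a hb hga hgb
    have h4 : Ico a (a + 1) = {a} := by simp
    rw [h4, sum_singleton, sum_singleton, hMa, hMb, h3]
    simp

/-- **Main theorem on `ℕ`.** -/
theorem IsMax.main (h : IsMax N g M) (hout : ∀ i, N < i → g i = 0)
    (hatt : ∀ v ≤ N, g v ≠ 0 → M v = g v)
    (hpl : ∀ v, v + 1 ≤ N → g v ≠ 0 → g (v + 1) ≠ 0 → g v = g (v + 1)) :
    (∑ v ∈ Ico 0 N, |M v - M (v + 1)|) * (N + 1 : ℝ) ≤
      N * ∑ v ∈ Ico 0 N, |g v - g (v + 1)| := by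
  classical
  by_cases hall : ∀ v ≤ N, g v = 0
  · have hM : ∀ v ≤ N, M v = 0 := by
      intro v hv
      obtain ⟨r, hr⟩ := h.attained v hv
      have h1 : ∑ i ∈ I N v r, g i = 0 := by
        apply sum_eq_zero
        intro i hi
        apply hall
        simp only [I, mem_Icc] at hi; omega
      rw [h1] at hr
      have h2 : (0 : ℝ) < (I N v r).card := by exact_mod_cast card_I_pos r hv
      rcases mul_eq_zero.mp hr with h3 | h3
      · exact h3
      · exact absurd h3 h2.ne'
    have hT : ∑ v ∈ Ico 0 N, |M v - M (v + 1)| = 0 := by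
      apply sum_eq_zero
      intro v hv
      rw [mem_Ico] at hv
      rw [hM v (by omega), hM (v + 1) (by omega)]
      simp
    rw [hT, zero_mul]
    exact mul_nonneg (by positivity) (sum_nonneg fun _ _ => abs_nonneg _)
  push Not at hall
  -- the prefix estimate at points of the support
  have key : ∀ b ≤ N, g b ≠ 0 → (∑ v ∈ Ico 0 b, |M v - M (v + 1)|) * (N + 1 : ℝ) ≤
      N * ∑ v ∈ Ico 0 b, |g v - g (v + 1)| := by
    intro b
    induction b using Nat.strong_induction_on with
    | _ b ih =>
    intro hb hgb
    by_cases hprev : ∃ a < b, g a ≠ 0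
    · -- the previous point of the support
      let S := (range b).filter (fun a => g a ≠ 0)
      have hS : S.Nonempty := by
        obtain ⟨a, ha, hga⟩ := hprev
        exact ⟨a, by simp [S, ha, hga]⟩
      obtain ⟨a, haS, hmax⟩ : ∃ a ∈ S, ∀ i ∈ S, i ≤ a := ⟨S.max' hS, S.max'_mem hS, S.le_max'⟩
      have ha : a < b ∧ g a ≠ 0 := by simpa [S] using haS
      have hz : ∀ i, a < i → i < b → g i = 0 := by
        intro i h1 h2
        by_contra h3
        have := hmax i (by simp [S, h2, h3])
        omega
      have h1 := ih a ha.1 (by omega) ha.2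
      have h2 := h.block ha.1 hb hz ha.2 hgb hatt hpl
      rw [← sum_Ico_consecutive _ (Nat.zero_le a) ha.1.le,
        ← sum_Ico_consecutive (fun v => |g v - g (v + 1)|) (Nat.zero_le a) ha.1.le, add_mul,
        mul_add]
      linarith
    · push Not at hprev
      rcases Nat.eq_zero_or_pos b with h0 | h0
      · subst h0; simp
      · have hT : ∀ c, c ≤ b → ∑ v ∈ Ico 0 c, |M v - M (v + 1)| = M c - M 0 := by
          intro c
          induction c with
          | zero => intro _; simp
          | succ c ihc =>
            intro hc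
            have hmono := h.mono_left (v := c) (by omega) (fun i hi => hprev i (by omega))
            rw [sum_Ico_succ_top (by omega), ihc (by omega), abs_sub_comm,
              abs_of_nonneg (by linarith)]
            ring
        rw [hT b le_rfl, hatt b hb hgb]
        have hmean := h.mean (v := 0) (b := b) (by omega) hb
        have hW : g b ≤ ∑ v ∈ Ico 0 b, |g v - g (v + 1)| := by
          have h3 := single_le_sum (f := fun v => |g v - g (v + 1)|)
            (fun i _ => abs_nonneg _) (show b - 1 ∈ Ico 0 b by rw [mem_Ico]; omega)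
          have h6 : b - 1 + 1 = b := by omega
          simp only [h6] at h3
          rw [hprev (b - 1) (by omega), zero_sub, abs_neg, abs_of_nonneg (h.nonneg b)] at h3
          exact h3
        have h9 : (N : ℝ) * g b ≤ N * ∑ v ∈ Ico 0 b, |g v - g (v + 1)| :=
          mul_le_mul_of_nonneg_left hW (by positivity)
        nlinarith
  -- the last point of the support
  let S := (range (N + 1)).filter (fun a => g a ≠ 0)
  have hS : S.Nonempty := by
    obtain ⟨a, ha, hga⟩ := hall
    exact ⟨a, by simp [S, Nat.lt_succ_of_le ha, hga]⟩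
  obtain ⟨a, haS, hmax⟩ : ∃ a ∈ S, ∀ i ∈ S, i ≤ a := ⟨S.max' hS, S.max'_mem hS, S.le_max'⟩
  have ha : a < N + 1 ∧ g a ≠ 0 := by simpa [S] using haS
  have haN : a ≤ N := by omega
  have hz : ∀ i, a < i → g i = 0 := by
    intro i h1
    by_cases h2 : i ≤ N
    · by_contra h3
      have := hmax i (by simp [S, Nat.lt_succ_of_le h2, h3])
      omega
    · exact hout i (by omega)
  have h1 := key a haN ha.2
  rcases Nat.eq_or_lt_of_le haN with h0 | h0
  · subst h0; exact h1
  · have hT : ∀ c, a ≤ c → c ≤ N → ∑ v ∈ Ico a c, |M v - M (v + 1)| = M a - M c := by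
      intro c hac
      induction c, hac using Nat.le_induction with
      | base => intro _; simp
      | succ c hac ihc =>
        intro hc
        have hmono := h.mono_right (v := c) hc (fun i hi => hz i (by omega))
        rw [sum_Ico_succ_top (by omega), ihc (by omega), abs_of_nonneg (by linarith)]
        ring
    have hT' := hT N haN le_rfl
    rw [hatt a haN ha.2] at hT'
    have hmean := h.mean (v := N) (b := a) le_rfl haN
    have hW : g a ≤ ∑ v ∈ Ico a N, |g v - g (v + 1)| := by
      have h3 := single_le_sum (f := fun v => |g v - g (v + 1)|)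
        (fun i _ => abs_nonneg _) (show a ∈ Ico a N by rw [mem_Ico]; omega)
      rw [hz (a + 1) (by omega), sub_zero, abs_of_nonneg (h.nonneg a)] at h3
      exact h3
    have h9 : (N : ℝ) * g a ≤ N * ∑ v ∈ Ico a N, |g v - g (v + 1)| :=
      mul_le_mul_of_nonneg_left hW (by positivity)
    rw [← sum_Ico_consecutive _ (Nat.zero_le a) haN,
      ← sum_Ico_consecutive (fun v => |g v - g (v + 1)|) (Nat.zero_le a) haN, add_mul,
      mul_add, hT']
    nlinarith

end Pool.Agent.Helper51_Max
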